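import Mathlib

namespace Pool.Agent.H.MP_431f4e_gt

open Metric Set GromovHausdorff

theorem gh_le {X Y : Type} [MetricSpace X] [CompactSpace X] [Nonempty X] [MetricSpace Y]
    [CompactSpace Y] [Nonempty Y] (R : X → Y → Prop) (c : ℝ) (hc : 0 < c)
    (h1 : ∀ x, ∃ y, R x y) (h2 : ∀ y, ∃ x, R x y)
    (h : ∀ x y x' y', R x y → R x' y' → |dist x x' - dist y y'| ≤ 2 * c) :
    ghDist X Y ≤ c := by
  let Z := {p : X × Y // R p.1 p.2}
  obtain ⟨x0⟩ := ‹Nonempty X›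
  obtain ⟨y0, hy0⟩ := h1 x0
  haveI : Nonempty Z := ⟨⟨(x0, y0), hy0⟩⟩
  let Φ : Z → X := fun p => p.1.1
  let Ψ : Z → Y := fun p => p.1.2
  have H : ∀ p q : Z, |dist (Φ p) (Φ q) - dist (Ψ p) (Ψ q)| ≤ 2 * c :=
    fun p q => h _ _ _ _ p.2 q.2
  let _ : MetricSpace (X ⊕ Y) := glueMetricApprox Φ Ψ c hc H
  let Fl := @Sum.inl X Y
  let Fr := @Sum.inr X Y
  have Il : Isometry Fl := Isometry.of_dist_eq fun x y => rfl
  have Ir : Isometry Fr := Isometry.of_dist_eq fun x y => rfl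
  refine le_trans (ghDist_le_hausdorffDist Il Ir) ?_
  refine hausdorffDist_le_of_mem_dist hc.le ?_ ?_
  · rintro _ ⟨x, rfl⟩
    obtain ⟨y, hy⟩ := h1 x
    exact ⟨Fr y, mem_range_self _, le_of_eq (glueDist_glued_points Φ Ψ c ⟨(x, y), hy⟩)⟩
  · rintro _ ⟨y, rfl⟩
    obtain ⟨x, hx⟩ := h2 y
    refine ⟨Fl x, mem_range_self _, ?_⟩
    rw [dist_comm]
    exact le_of_eq (glueDist_glued_points Φ Ψ c ⟨(x, y), hx⟩)

theorem gh_fun {X Y : Type} [MetricSpace X] [CompactSpace X] [Nonempty X] [MetricSpace Y]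
    [CompactSpace Y] [Nonempty Y] (c : ℝ) (hc : ghDist X Y < c) :
    ∃ f : X → Y, ∃ D : ℝ, D < 2 * c ∧ ∀ x x', |dist x x' - dist (f x) (f x')| ≤ D := by
  obtain ⟨Φ, Ψ, hΦ, hΨ, he⟩ := ghDist_eq_hausdorffDist X Y
  set c' := (ghDist X Y + c) / 2 with hc'
  have h1 : hausdorffDist (range Φ) (range Ψ) < c' := by rw [← he]; linarith
  have fin := hausdorffEDist_ne_top_of_nonempty_of_bounded (range_nonempty Φ) (range_nonempty Ψ)
    (isCompact_range hΦ.continuous).isBounded (isCompact_range hΨ.continuous).isBounded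
  have h2 : ∀ x, ∃ y, dist (Φ x) (Ψ y) < c' := by
    intro x
    obtain ⟨_, ⟨y, rfl⟩, hy⟩ := exists_dist_lt_of_hausdorffDist_lt (mem_range_self x) h1 fin
    exact ⟨y, hy⟩
  choose f hf using h2
  refine ⟨f, 2 * c', by linarith, fun x x' => ?_⟩
  rw [← hΦ.dist_eq, ← hΨ.dist_eq (f x)]
  have a1 := dist_triangle4 (Φ x) (Ψ (f x)) (Ψ (f x')) (Φ x')
  have a2 := dist_triangle4 (Ψ (f x)) (Φ x) (Φ x') (Ψ (f x'))
  have a3 := dist_comm (Φ x) (Ψ (f x))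
  have a4 := dist_comm (Φ x') (Ψ (f x'))
  have a5 := hf x
  have a6 := hf x'
  rw [abs_le]
  constructor <;> linarith

end Pool.Agent.H.MP_431f4e_gt
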