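import Pool.Agent.H.MP_431f4e_gt.Trig

namespace Pool.Agent.H.MP_431f4e_gt

open Real Set

noncomputable def gg (h x y : ℝ) : ℝ := h * (1 + x + 0.215 * y ^ 2)

theorem gg_bounds {c h x y : ℝ} (P : Par c h) (hxy : x ^ 2 + y ^ 2 ≤ 1) :
    0 ≤ gg h x y ∧ gg h x y ≤ 0.79 := by
  have a1 := P.h1
  have a2 := P.h2
  have x1 : x ≤ 1 := by nlinarith [sq_nonneg y]
  have x2 : -1 ≤ x := by nlinarith [sq_nonneg y]
  have y1 : y ^ 2 ≤ 1 := by nlinarith [sq_nonneg x]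
  have y0 := sq_nonneg y
  unfold gg
  constructor
  · exact mul_nonneg (by linarith) (by linarith)
  · nlinarith

theorem disc {x y : ℝ} (h : x ^ 2 + y ^ 2 ≤ 1) : -1 ≤ x ∧ x ≤ 1 ∧ y ≤ 1 ∧ y ^ 2 ≤ 1 := by
  refine ⟨?_, ?_, ?_, ?_⟩ <;> nlinarith [sq_nonneg x, sq_nonneg y]

theorem sq_sub_le {p r m : ℝ} (hp : 0 ≤ p) (hr : 0 ≤ r) (h1 : p ^ 2 ≤ m) (h2 : r ^ 2 ≤ m) :
    (p - r) ^ 2 ≤ m := by
  rcases le_total p r with h | h <;> nlinarith

theorem le_sq {x y : ℝ} (h : x ^ 2 ≤ y ^ 2) (hy : 0 ≤ y) : x ≤ y :=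
  le_trans (le_abs_self _) (abs_le_of_sq_le_sq h hy)

theorem sq_le {x y : ℝ} (hx : 0 ≤ x) (h : x ≤ y) : x ^ 2 ≤ y ^ 2 := by nlinarith

theorem far_x {c h a p b r d : ℝ} (P : Par c h) (hu : a ^ 2 + p ^ 2 ≤ 1) (hv : b ^ 2 + r ^ 2 ≤ 1)
    (hp : 0 ≤ p) (hr : 0 ≤ r) (hab : b ≤ a) (hd : d ^ 2 = (a - b) ^ 2 + (p - r) ^ 2)
    (hd1 : 2 * c < d) : 0.837 ≤ a - b := by
  have c1 := P.c1
  have e1 := sq_sub_le hp hr (disc hu).2.2.2 (disc hv).2.2.2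
  have e2 := sq_le (x := 1.30436) (y := d) (by norm_num) (by linarith)
  exact le_sq (by norm_num at e2 ⊢; linarith) (by linarith)

theorem K0 {c h a p b r d : ℝ} (P : Par c h) (hu : a ^ 2 + p ^ 2 ≤ 1) (hv : b ^ 2 + r ^ 2 ≤ 1)
    (hp : 0 ≤ p) (hr : 0 ≤ r) (hab : b ≤ a) (hd : d ^ 2 = (a - b) ^ 2 + (p - r) ^ 2)
    (hd1 : 2 * c < d) : d - 2 * c ≤ (1 - c) * (a - b + 0.215 * (p ^ 2 - r ^ 2)) := by
  have c1 := P.c1
  have c2 := P.c2
  have hX := far_x P hu hv hp hr hab hd hd1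
  obtain ⟨-, a1, p1, p4⟩ := disc hu
  obtain ⟨b1, -, r1, r4⟩ := disc hv
  have p2 := sq_nonneg p
  obtain ⟨X, hXd⟩ : ∃ X, X = a - b := ⟨_, rfl⟩
  rw [← hXd] at hd hX ⊢
  have X2 : X ≤ 2 := by linarith
  rcases le_total 1 X with h1 | h1
  · have r2 : r ^ 2 ≤ X * (2 - X) := by
      have := sq_le (x := X - 1) (y := -b) (by linarith) (by linarith)
      linarith
    have p3 : p ^ 2 ≤ X * (2 - X) := by
      have := sq_le (x := X - 1) (y := a) (by linarith) (by linarith)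
      linarith
    have e1 := sq_sub_le hp hr p3 r2
    have e2 : d ≤ 1 + X / 2 := le_sq (by linarith [sq_nonneg (1 - X / 2)]) (by linarith)
    have e3 : r ^ 2 ≤ 2 * (2 - X) := by linarith [sq_nonneg (2 - X)]
    have e4 : X - 0.43 * (2 - X) ≤ X + 0.215 * (p ^ 2 - r ^ 2) := by linarith
    have e5 : (1 - c) * (X - 0.43 * (2 - X)) ≤ (1 - c) * (X + 0.215 * (p ^ 2 - r ^ 2)) :=
      mul_le_mul_of_nonneg_left e4 (by linarith)
    have e6 : 0 ≤ (2 - X) * (0.5 - 1.43 * (1 - c)) := mul_nonneg (by linarith) (by linarith)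
    linarith
  · have e1 := sq_sub_le hp hr p4 r4
    have e3 := sq_le (x := X) (y := 1) (by linarith) h1
    have e2 : d ≤ 1.415 := le_sq (by norm_num; linarith) (by norm_num)
    have e4 : 0.622 ≤ X + 0.215 * (p ^ 2 - r ^ 2) := by linarith
    have e5 : (1 - c) * 0.622 ≤ (1 - c) * (X + 0.215 * (p ^ 2 - r ^ 2)) :=
      mul_le_mul_of_nonneg_left e4 (by linarith)
    linarith

theorem Kc {c h a p b r d ρ : ℝ} (P : Par c h) (hu : a ^ 2 + p ^ 2 ≤ 1) (hv : b ^ 2 + r ^ 2 ≤ 1)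
    (hp : 0 ≤ p) (hr : 0 ≤ r) (hab : b ≤ a) (hd : d ^ 2 = (a - b) ^ 2 + (p - r) ^ 2)
    (hd1 : 2 * c < d) (hb : -0.08 ≤ b) (hρ0 : 0 ≤ ρ) (hρ : ρ ^ 2 = (b - 0.71) ^ 2 + (r - c) ^ 2) :
    0.757 ≤ a ∧ 0.6404 + 0.513 * (d - 2 * c) ≤ ρ := by
  have c1 := P.c1
  have c2 := P.c2
  have hX := far_x P hu hv hp hr hab hd hd1
  have a0 : 0.757 ≤ a := by linarith
  refine ⟨a0, ?_⟩
  obtain ⟨-, a1, -, -⟩ := disc hu
  obtain ⟨-, -, r1, r4⟩ := disc hv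
  have a3 := sq_le (x := 0.757) (y := a) (by norm_num) a0
  have p1 : p ≤ 0.654 := le_sq (by norm_num at a3 ⊢; linarith) (by norm_num)
  have e2 := sq_le (x := 1.30436) (y := d) (by norm_num) (by linarith)
  have e3 := sq_le (x := a - b) (y := 1.08) (by linarith) (by linarith)
  have e4 : p ≤ r := by
    by_contra hh
    push Not at hh
    have := sq_le (x := p - r) (y := 0.654) (by linarith) (by linarith)
    norm_num at this e2 e3
    linarith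
  have e5 : d ^ 2 ≤ (1 - b) ^ 2 + r ^ 2 := by
    have s1 := sq_le (x := a - b) (y := 1 - b) (by linarith) (by linarith)
    have s2 := sq_le (x := r - p) (y := r) (by linarith) (by linarith)
    linarith
  have e6 : 0.71 * d ^ 2 - 0.795 ≤ ρ ^ 2 := by
    have s0 : 2 * r ≤ 1 + (b ^ 2 + r ^ 2) := by linarith [sq_nonneg (1 - r), sq_nonneg b]
    have s1 := mul_le_mul_of_nonneg_left s0 (by linarith : 0 ≤ c)
    have s2 := sq_le (x := 0.65218) (y := c) (by norm_num) c1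
    have s3 : c * (1 + (b ^ 2 + r ^ 2)) ≤ 0.6522 * (1 + (b ^ 2 + r ^ 2)) :=
      mul_le_mul_of_nonneg_right c2 (by positivity)
    norm_num at s2
    linarith
  have e7 : d ≤ 1.48 := le_sq (by norm_num at e3 ⊢; linarith) (by norm_num)
  obtain ⟨w, hw⟩ : ∃ w, w = d - 2 * c := ⟨_, rfl⟩
  rw [← hw]
  have w0 : 0 ≤ w := by linarith
  have w1 : w ≤ 0.18 := by linarith
  have e8 := sq_le (x := 1.30436 + w) (y := d) (by linarith) (by linarith)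
  have w2 := sq_nonneg w
  exact le_sq (by linarith) hρ0

theorem gg_ge {c h x y : ℝ} (P : Par c h) (hx : -1 ≤ x) : 0.354 * (1 + x) ≤ gg h x y := by
  have a1 := P.h1
  have := sq_nonneg y
  unfold gg
  nlinarith

theorem same_low {c h a p b r d ρ : ℝ} (P : Par c h) (hu : a ^ 2 + p ^ 2 ≤ 1)
    (hv : b ^ 2 + r ^ 2 ≤ 1) (hp : 0 ≤ p) (hr : 0 ≤ r) (hab : b ≤ a)
    (hd : d ^ 2 = (a - b) ^ 2 + (p - r) ^ 2) (hd1 : 2 * c < d) (hρ0 : 0 ≤ ρ)
    (hρ : ρ ^ 2 = (b - 0.71) ^ 2 + (r - c) ^ 2) :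
    h * (d - 2 * c) ≤ (1 - c) * (gg h a p - max (gg h b r) (LL c - 2 * ρ)) := by
  have c1 := P.c1
  have c2 := P.c2
  have a1 := P.h1
  have a2 := P.h2
  obtain ⟨l1, l2⟩ := LL_bounds P
  have k0 := K0 P hu hv hp hr hab hd hd1
  have hg : h * (d - 2 * c) ≤ (1 - c) * (gg h a p - gg h b r) := by
    have := mul_le_mul_of_nonneg_left k0 (by linarith : 0 ≤ h)
    unfold gg
    linarith
  rcases le_total (LL c - 2 * ρ) (gg h b r) with h1 | h1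
  · rw [max_eq_left h1]
    exact hg
  rw [max_eq_right h1]
  rcases le_total b (-0.08) with h2 | h2
  · have b1 : -1 ≤ b := (disc hv).1
    have e1 : 0.71 - b ≤ ρ := le_sq (by linarith [sq_nonneg (r - c)]) hρ0
    have e2 := gg_ge (y := r) P b1
    have e3 : LL c - 2 * ρ = gg h b r := le_antisymm (by linarith) h1
    rw [e3]
    exact hg
  · obtain ⟨k1, k2⟩ := Kc P hu hv hp hr hab hd hd1 h2 hρ0 hρ
    have e2 := gg_ge (x := a) (y := p) P (by linarith)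
    have e3 : 1.026 * (d - 2 * c) ≤ gg h a p - (LL c - 2 * ρ) := by linarith
    have e4 := mul_le_mul_of_nonneg_left e3 (by linarith : 0 ≤ 1 - c)
    have e5 : h ≤ (1 - c) * 1.026 := by linarith
    have e6 := mul_le_mul_of_nonneg_right e5 (by linarith : 0 ≤ d - 2 * c)
    linarith

theorem K1 {c h b r ρ : ℝ} (P : Par c h) (hv : b ^ 2 + r ^ 2 ≤ 1) (hr : 0 ≤ r) (hρ0 : 0 ≤ ρ)
    (hρ : ρ ^ 2 = (b - 0.71) ^ 2 + (r + c) ^ 2) : gg h b r + LL c - JJ c ≤ 2 * ρ := by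
  have c1 := P.c1
  have c2 := P.c2
  have a1 := P.h1
  have a2 := P.h2
  obtain ⟨l1, l2⟩ := LL_bounds P
  obtain ⟨j1, j2⟩ := JJ_bounds P
  have b1 : -1 ≤ b := by nlinarith [sq_nonneg r]
  have b2 : b ≤ 1 := by nlinarith [sq_nonneg r]
  have r1 : r ≤ 1 := by nlinarith [sq_nonneg b]
  have e1 : 0.1776 * (b - 0.71) + 0.984 * (r + c) ≤ ρ := by
    have : (0.1776 * (b - 0.71) + 0.984 * (r + c)) ^ 2 ≤ ρ ^ 2 := by
      rw [hρ]
      nlinarith [sq_nonneg (0.984 * (b - 0.71) - 0.1776 * (r + c)), sq_nonneg (b - 0.71),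
        sq_nonneg (r + c)]
    exact le_trans (le_abs_self _) (abs_le_of_sq_le_sq this hρ0)
  have r2 : r ^ 2 ≤ r := by nlinarith
  have e2 : gg h b r ≤ 0.3565 * (1 + b + 0.215 * r ^ 2) := by
    unfold gg
    exact mul_le_mul_of_nonneg_right a2 (by nlinarith [sq_nonneg r])
  linarith

theorem K2b {k a p b r : ℝ} (k1 : 0.3478 ≤ k) (k2 : k ≤ 0.34782) (hu : a ^ 2 + p ^ 2 = 1)
    (hv : b ^ 2 + r ^ 2 = 1) :
    0 ≤ 1 - ((a - b) ^ 2 + (p + r) ^ 2) / 4 + k * (a + b + 0.215 * (p ^ 2 + r ^ 2)) := by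
  set M := (1 + a * b + p * r) / 2 with hM
  set N := (1 + a * b - p * r) / 2 with hN
  have M0 : 0 ≤ M := by nlinarith [sq_nonneg (a + b), sq_nonneg (p + r)]
  have M1 : M ≤ 1 := by nlinarith [sq_nonneg (a - b), sq_nonneg (p - r)]
  have N0 : 0 ≤ N := by nlinarith [sq_nonneg (a + b), sq_nonneg (p - r)]
  have hp2 : p ^ 2 = 1 - a ^ 2 := by linarith
  have hr2 : r ^ 2 = 1 - b ^ 2 := by linarith
  have eS : (a + b) ^ 2 = 4 * M * N := by
    have : (p * r) ^ 2 = (1 - a ^ 2) * (1 - b ^ 2) := by rw [mul_pow, hp2, hr2]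
    rw [hM, hN]
    linear_combination this
  have eN : 1 - ((a - b) ^ 2 + (p + r) ^ 2) / 4 = N := by
    rw [hN]
    linear_combination (-1 / 4) * hu + (-1 / 4) * hv
  have eQ : p ^ 2 + r ^ 2 = 2 * M + 2 * N - 4 * M * N := by
    rw [← eS, hM, hN]
    linear_combination hu + hv
  rw [eN, eQ]
  have MN : M * N ≤ N := by nlinarith
  -- suffices: (1 - 0.43 k) N + 0.43 k M + k S ≥ 0
  have key : -(k * (a + b)) ≤ (1 - 0.43 * k) * N + 0.43 * k * M := by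
    have pos : 0 ≤ (1 - 0.43 * k) * N + 0.43 * k * M := by
      have := mul_nonneg (by linarith : 0 ≤ 1 - 0.43 * k) N0
      have := mul_nonneg (by linarith : 0 ≤ 0.43 * k) M0
      linarith
    have sq : (-(k * (a + b))) ^ 2 ≤ ((1 - 0.43 * k) * N + 0.43 * k * M) ^ 2 := by
      have t1 : (-(k * (a + b))) ^ 2 = k ^ 2 * (4 * M * N) := by rw [← eS]; ring
      have t2 : k ^ 2 ≤ (1 - 0.43 * k) * (0.43 * k) := by nlinarith
      have t3 : 0 ≤ 4 * M * N := by positivity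
      have t4 := mul_le_mul_of_nonneg_right t2 t3
      rw [t1]
      nlinarith [sq_nonneg ((1 - 0.43 * k) * N - 0.43 * k * M)]
    exact le_trans (le_abs_self _) (abs_le_of_sq_le_sq sq pos)
  have t5 : k * (M * N) ≤ k * N := mul_le_mul_of_nonneg_left MN (by linarith)
  nlinarith

theorem K2 {c h a p b r d : ℝ} (P : Par c h) (hu : a ^ 2 + p ^ 2 ≤ 1) (hv : b ^ 2 + r ^ 2 ≤ 1)
    (hp : 0 ≤ p) (hr : 0 ≤ r) (hd : d ^ 2 = (a - b) ^ 2 + (p + r) ^ 2) :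
    h * (d - 2 * c) ≤ (1 - c) * (gg h a p + gg h b r) := by
  have c1 := P.c1
  have c2 := P.c2
  have a1 := P.h1
  have ha : 0 ≤ 1 - a ^ 2 := by nlinarith [sq_nonneg p]
  have hb : 0 ≤ 1 - b ^ 2 := by nlinarith [sq_nonneg r]
  set p' := √(1 - a ^ 2) with hp'
  set r' := √(1 - b ^ 2) with hr'
  have q1 : p' ^ 2 = 1 - a ^ 2 := sq_sqrt ha
  have q2 : r' ^ 2 = 1 - b ^ 2 := sq_sqrt hb
  have q3 : p ≤ p' := le_sqrt_of_sq_le (by linarith)
  have q4 : r ≤ r' := le_sqrt_of_sq_le (by linarith)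
  have kb := K2b (k := 1 - c) (a := a) (p := p') (b := b) (r := r') (by linarith) (by linarith)
    (by linarith) (by linarith)
  have m1 : 0 ≤ p' ^ 2 - p ^ 2 := by nlinarith
  have m2 : 0 ≤ r' ^ 2 - r ^ 2 := by nlinarith
  have m3 : p * r ≤ p' * r' := mul_le_mul q3 q4 hr (by linarith)
  have m4 : (1 - c) * (0.215 * ((p' ^ 2 - p ^ 2) + (r' ^ 2 - r ^ 2))) ≤
      1 * (0.215 * ((p' ^ 2 - p ^ 2) + (r' ^ 2 - r ^ 2))) :=
    mul_le_mul_of_nonneg_right (by linarith) (by linarith)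
  have k : 0 ≤ 1 - d ^ 2 / 4 + (1 - c) * (a + b + 0.215 * (p ^ 2 + r ^ 2)) := by
    rw [hd]
    nlinarith
  have e1 : d - 2 * c ≤ (1 - c) * (2 + a + b + 0.215 * (p ^ 2 + r ^ 2)) := by
    nlinarith [sq_nonneg (d - 2)]
  have := mul_le_mul_of_nonneg_left e1 (by linarith : 0 ≤ h)
  unfold gg
  nlinarith

end Pool.Agent.H.MP_431f4e_gt
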