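import Pool.Agent.H.MP_431f4e_gt.Trig

namespace Pool.Agent.H.MP_431f4e_gt

open Real Set

theorem exp_arg_div {a b : ℂ} (ha : ‖a‖ = 1) (hb : ‖b‖ = 1) :
    b = a * Complex.exp (Complex.I * (Complex.arg (b / a) : ℝ)) := by
  have a0 : a ≠ 0 := by
    intro h
    rw [h, norm_zero] at ha
    exact zero_ne_one ha
  have h1 := Complex.norm_mul_exp_arg_mul_I (b / a)
  rw [norm_div, ha, hb] at h1
  simp only [div_one, Complex.ofReal_one, one_mul] at h1
  rw [mul_comm Complex.I, h1]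
  field_simp

theorem norm_sub_of_exp {a : ℂ} (ha : ‖a‖ = 1) (s t : ℝ) :
    ‖a * Complex.exp (Complex.I * s) - a * Complex.exp (Complex.I * t)‖ = ch (s - t) := by
  rw [← mul_sub, norm_mul, ha, one_mul, norm_exp_sub]

theorem exists_lift {c h : ℝ} (P : Par c h) (f : ℂ → ℂ) (hf : ∀ u, ‖u‖ ≤ 1 → ‖f u‖ = 1)
    (η : ℝ) (hη : 0 < η)
    (hcl : ∀ u v, ‖u‖ ≤ 1 → ‖v‖ ≤ 1 → ‖u - v‖ ≤ η → ‖f u - f v‖ < 2 * c) :
    ∃ G : ℂ → ℝ, (∀ u, ‖u‖ ≤ 1 → f u = f 0 * Complex.exp (Complex.I * G u)) ∧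
      ∀ u v, ‖u‖ ≤ 1 → ‖v‖ ≤ 1 → ‖u - v‖ ≤ η / 2 → |G v - G u| < 4 * h := by
  have hp1 := pi_gt_d2
  have a1 := P.h1
  have a2 := P.h2
  let δ : ℂ → ℂ → ℝ := fun u v => Complex.arg (f v / f u)
  have hexp : ∀ u v, ‖u‖ ≤ 1 → ‖v‖ ≤ 1 → f v = f u * Complex.exp (Complex.I * δ u v) :=
    fun u v hu hv => exp_arg_div (hf u hu) (hf v hv)
  have hclose : ∀ u v, ‖u‖ ≤ 1 → ‖v‖ ≤ 1 → ‖u - v‖ ≤ η → |δ u v| < 4 * h := by
    intro u v hu hv huv
    have b1 := hcl u v hu hv huv
    have b2 : ‖f u - f v‖ = ch (δ u v) := by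
      have := norm_sub_of_exp (hf u hu) 0 (δ u v)
      rw [← hexp u v hu hv] at this
      simp only [Complex.ofReal_zero, mul_zero, Complex.exp_zero, mul_one, zero_sub,
        ch_neg] at this
      exact this
    have b3 : |δ u v| ≤ π := Complex.abs_arg_le_pi _
    by_contra hh
    push Not at hh
    rw [b2, ← ch_abs, ch_eq (abs_nonneg _) (by linarith)] at b1
    have := sin_le_sin_of_le_of_le_pi_div_two (x := 2 * h) (y := |δ u v| / 2) (by linarith)
      (by linarith) (by linarith)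
    rw [P.s2] at this
    linarith
  have hco : ∀ u v w, ‖u‖ ≤ 1 → ‖v‖ ≤ 1 → ‖w‖ ≤ 1 → ‖u - v‖ ≤ η → ‖v - w‖ ≤ η → ‖u - w‖ ≤ η →
      δ u v + δ v w = δ u w := by
    intro u v w hu hv hw huv hvw huw
    have b1 := abs_lt.1 (hclose u v hu hv huv)
    have b2 := abs_lt.1 (hclose v w hv hw hvw)
    have b3 := abs_lt.1 (hclose u w hu hw huw)
    have u0 : f u ≠ 0 := by
      intro h0
      have := hf u hu
      rw [h0, norm_zero] at this
      exact zero_ne_one this
    have e1 : Complex.exp (Complex.I * ((δ u v + δ v w : ℝ) : ℂ)) =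
        Complex.exp (Complex.I * δ u w) := by
      apply mul_left_cancel₀ u0
      rw [← hexp u w hu hw, hexp v w hv hw, hexp u v hu hv, mul_assoc, ← Complex.exp_add]
      push_cast
      ring_nf
    obtain ⟨n, hn⟩ := Complex.exp_eq_exp_iff_exists_int.1 e1
    have e2 : δ u v + δ v w = δ u w + n * (2 * π) := by
      have := congrArg Complex.im hn
      simpa using this
    have n1 : (n : ℝ) < 1 := by
      by_contra hh
      push Not at hh
      nlinarith
    have n2 : (-1 : ℝ) < n := by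
      by_contra hh
      push Not at hh
      nlinarith
    have n3 : n = 0 := by
      have n1' : n < 1 := by exact_mod_cast n1
      have n2' : -1 < n := by exact_mod_cast n2
      omega
    rw [e2, n3]
    simp
  obtain ⟨N, hN⟩ := exists_nat_gt (2 / η)
  have N0 : (0 : ℝ) < N := lt_trans (by positivity) hN
  have hN' : 1 / (N : ℝ) ≤ η / 2 := by
    rw [div_lt_iff₀ hη] at hN
    rw [div_le_iff₀ N0]
    linarith
  let pt : ℕ → ℂ → ℂ := fun j u => (((j : ℝ) / N : ℝ) : ℂ) * u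
  have hr : ∀ j : ℕ, j ≤ N → ‖(((j : ℝ) / N : ℝ) : ℂ)‖ ≤ 1 := by
    intro j hj
    rw [Complex.norm_real, Real.norm_eq_abs, abs_of_nonneg (by positivity), div_le_one N0]
    exact_mod_cast hj
  have p1 : ∀ j u, j ≤ N → ‖u‖ ≤ 1 → ‖pt j u‖ ≤ 1 := by
    intro j u hj hu
    simp only [pt]
    rw [norm_mul]
    exact mul_le_one₀ (hr j hj) (norm_nonneg _) hu
  have p2 : ∀ j u v, j ≤ N → ‖pt j u - pt j v‖ ≤ ‖u - v‖ := by
    intro j u v hj
    simp only [pt]
    rw [← mul_sub, norm_mul]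
    exact mul_le_of_le_one_left (norm_nonneg _) (hr j hj)
  have p3 : ∀ j u, ‖u‖ ≤ 1 → ‖pt j u - pt (j + 1) u‖ ≤ η / 2 := by
    intro j u hu
    simp only [pt]
    rw [← sub_mul, norm_mul, ← Complex.ofReal_sub, Complex.norm_real, Real.norm_eq_abs]
    have : (j : ℝ) / N - ((j + 1 : ℕ) : ℝ) / N = -(1 / N) := by
      push_cast
      ring
    rw [this, abs_neg, abs_of_nonneg (by positivity)]
    exact le_trans (mul_le_of_le_one_right (by positivity) hu) hN'
  have p0 : ∀ u, pt 0 u = 0 := by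
    intro u
    simp [pt]
  have pN : ∀ u, pt N u = u := by
    intro u
    simp only [pt]
    rw [div_self N0.ne']
    simp
  let F : ℕ → ℂ → ℝ := fun k u => ∑ j ∈ Finset.range k, δ (pt j u) (pt (j + 1) u)
  have F1 : ∀ u, ‖u‖ ≤ 1 → ∀ k, k ≤ N → f (pt k u) = f 0 * Complex.exp (Complex.I * F k u) := by
    intro u hu k
    induction k with
    | zero =>
      intro _
      simp [F, p0]
    | succ k ih =>
      intro hk
      have hk' : k ≤ N := by omega
      rw [hexp (pt k u) (pt (k + 1) u) (p1 _ _ hk' hu) (p1 _ _ hk hu), ih hk', mul_assoc,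
        ← Complex.exp_add]
      simp only [F, Finset.sum_range_succ]
      push_cast
      ring_nf
  have F2 : ∀ u v, ‖u‖ ≤ 1 → ‖v‖ ≤ 1 → ‖u - v‖ ≤ η / 2 → ∀ k, k ≤ N →
      F k v - F k u = δ (pt k u) (pt k v) := by
    intro u v hu hv huv k
    induction k with
    | zero =>
      intro _
      have : f 0 ≠ 0 := by
        intro h0
        have := hf 0 (by simp)
        rw [h0, norm_zero] at this
        exact zero_ne_one this
      simp [F, p0, δ, div_self this]
    | succ k ih =>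
      intro hk
      have hk' : k ≤ N := by omega
      have q1 := p2 k u v hk'
      have q2 := p2 (k + 1) u v hk
      have q3 := p3 k u hu
      have q4 := p3 k v hv
      have q5 : ‖pt k u - pt (k + 1) v‖ ≤ η := by
        have := norm_sub_le_norm_sub_add_norm_sub (pt k u) (pt k v) (pt (k + 1) v)
        linarith
      have r1 := hco (pt k u) (pt k v) (pt (k + 1) v) (p1 _ _ hk' hu) (p1 _ _ hk' hv)
        (p1 _ _ hk hv) (by linarith) (by linarith) q5
      have r2 := hco (pt k u) (pt (k + 1) u) (pt (k + 1) v) (p1 _ _ hk' hu) (p1 _ _ hk hu)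
        (p1 _ _ hk hv) (by linarith) (by linarith) q5
      have := ih hk'
      simp only [F, Finset.sum_range_succ] at this ⊢
      linarith
  refine ⟨F N, fun u hu => ?_, fun u v hu hv huv => ?_⟩
  · have := F1 u hu N le_rfl
    rwa [pN] at this
  · rw [F2 u v hu hv huv N le_rfl, pN, pN]
    exact hclose u v hu hv (by linarith)

theorem lower {c h : ℝ} (P : Par c h) (f : ℂ → ℂ) (hf : ∀ u, ‖u‖ ≤ 1 → ‖f u‖ = 1)
    (D : ℝ) (hD : D < 2 * c)
    (hdis : ∀ u v, ‖u‖ ≤ 1 → ‖v‖ ≤ 1 → |‖u - v‖ - ‖f u - f v‖| ≤ D) : False := by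
  have hp1 := pi_gt_d2
  have a1 := P.h1
  have a2 := P.h2
  set η := (2 * c - D) / 2 with hη
  have η0 : 0 < η := by linarith
  obtain ⟨G, G1, G2⟩ := exists_lift P f hf η η0 (by
    intro u v hu hv huv
    have := (abs_le.1 (hdis u v hu hv)).1
    linarith)
  have far : ∀ u v, ‖u‖ ≤ 1 → ‖v‖ ≤ 1 → 2 - η ≤ ‖u - v‖ → 2 * h < |G u - G v| := by
    intro u v hu hv huv
    have b1 := (abs_le.1 (hdis u v hu hv)).2
    have b2 : ‖f u - f v‖ = ch (G u - G v) := by
      rw [G1 u hu, G1 v hv]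
      exact norm_sub_of_exp (hf 0 (by simp)) _ _
    by_contra hh
    push Not at hh
    rw [b2, ← ch_abs, ch_eq (abs_nonneg _) (by linarith)] at b1
    have := sin_le_sin_of_le_of_le_pi_div_two (x := |G u - G v| / 2) (y := h)
      (by linarith [abs_nonneg (G u - G v)]) (by linarith) (by linarith)
    rw [P.sh] at this
    linarith
  obtain ⟨n, hn⟩ := exists_nat_gt (2 * π / η)
  have n0 : (0 : ℝ) < n := lt_trans (by positivity) hn
  have hn' : π / n ≤ η / 2 := by
    rw [div_lt_iff₀ η0] at hn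
    rw [div_le_iff₀ n0]
    linarith
  let e : ℕ → ℂ := fun k => Complex.exp (Complex.I * ((π * k / n : ℝ) : ℂ))
  have e1 : ∀ k, ‖e k‖ = 1 := fun k => Complex.norm_exp_I_mul_ofReal _
  have e1' : ∀ k, ‖e k‖ ≤ 1 := fun k => (e1 k).le
  have e2' : ∀ k, ‖-e k‖ ≤ 1 := fun k => by rw [norm_neg]; exact e1' k
  have e2 : ∀ k, ‖e k - e (k + 1)‖ ≤ η / 2 := by
    intro k
    simp only [e]
    rw [norm_exp_sub]
    have : π * k / n - π * ((k + 1 : ℕ) : ℝ) / n = -(π / n) := by
      push_cast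
      ring
    rw [this, ch_neg]
    unfold ch
    have b := abs_sin_le_abs (x := π / n / 2)
    rw [abs_of_nonneg (by positivity : 0 ≤ π / n / 2)] at b
    rw [abs_mul]
    norm_num
    linarith
  have e3 : ∀ k, ‖e k - -e k‖ = 2 := by
    intro k
    rw [sub_neg_eq_add, ← two_mul, norm_mul, e1]
    simp
  have en : e n = -e 0 := by
    simp only [e]
    rw [mul_div_assoc, div_self n0.ne']
    simp [mul_comm Complex.I]
  have step : ∀ a a' : ℂ, ‖a‖ ≤ 1 → ‖a'‖ ≤ 1 → ‖a - -a‖ = 2 → ‖a' - -a'‖ = 2 →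
      ‖a - a'‖ ≤ η / 2 → 2 * h < G a - G (-a) → 2 * h < G a' - G (-a') := by
    intro a a' ha ha' h2 h2' hc hG
    have hb : ‖-a‖ ≤ 1 := by rwa [norm_neg]
    have hb' : ‖-a'‖ ≤ 1 := by rwa [norm_neg]
    have hc' : ‖-a - -a'‖ ≤ η / 2 := by
      rw [← neg_sub', norm_neg]
      exact hc
    have c1 := abs_lt.1 (G2 a a' ha ha' hc)
    have c2 := abs_lt.1 (G2 (-a) (-a') hb hb' hc')
    have c3 := far a' (-a') ha' hb' (by linarith)
    have c4 := far a (-a') ha hb' (by
      have := norm_sub_le_norm_sub_add_norm_sub a (-a') (-a)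
      rw [norm_sub_rev (-a') (-a)] at this
      linarith)
    rcases lt_abs.1 c3 with d1 | d1
    · exact d1
    · exfalso
      rcases lt_abs.1 c4 with d2 | d2 <;> linarith
  have s1 : 2 * h < G (e 0) - G (-e 0) → ∀ k, 2 * h < G (e k) - G (-e k) := by
    intro h0 k
    induction k with
    | zero => exact h0
    | succ k ih => exact step _ _ (e1' _) (e1' _) (e3 _) (e3 _) (e2 k) ih
  have s2 : 2 * h < G (-e 0) - G (e 0) → ∀ k, 2 * h < G (-e k) - G (e k) := by
    intro h0 k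
    induction k with
    | zero => exact h0
    | succ k ih =>
      have := step (-e k) (-e (k + 1)) (e2' _) (e2' _)
        (by rw [neg_neg, norm_sub_rev, ← e3 k])
        (by rw [neg_neg, norm_sub_rev, ← e3 (k + 1)])
        (by rw [← neg_sub', norm_neg]; exact e2 k) (by rw [neg_neg]; exact ih)
      rwa [neg_neg] at this
  have f0 := far (e 0) (-e 0) (e1' _) (e2' _) (by rw [e3]; linarith)
  rcases lt_abs.1 f0 with d | d
  · have := s1 d n
    rw [en, neg_neg] at this
    linarith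
  · have := s2 (by linarith) n
    rw [en, neg_neg] at this
    linarith

end Pool.Agent.H.MP_431f4e_gt
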