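import Mathlib

namespace Pool.Agent.H.MP_431f4e_gt

open Real Set

structure Par (c h : ℝ) : Prop where
  c1 : 0.65218 ≤ c
  c2 : c ≤ 0.6522
  h1 : 0.354 ≤ h
  h2 : h ≤ 0.3565
  sh : sin h = 1 - c
  s2 : sin (2 * h) = c

theorem par_exists : ∃ c h : ℝ, Par c h ∧ 4 * c ^ 3 - 16 * c ^ 2 + 21 * c - 8 = 0 := by
  have hcont : ContinuousOn (fun c : ℝ => 4 * c ^ 3 - 16 * c ^ 2 + 21 * c - 8)
      (Icc 0.65218 0.6522) := by fun_prop
  have hI := intermediate_value_Icc (by norm_num : (0.65218 : ℝ) ≤ 0.6522) hcont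
  have h0 : (0 : ℝ) ∈ Icc (4 * (0.65218 : ℝ) ^ 3 - 16 * 0.65218 ^ 2 + 21 * 0.65218 - 8)
      (4 * (0.6522 : ℝ) ^ 3 - 16 * 0.6522 ^ 2 + 21 * 0.6522 - 8) := by
    constructor <;> norm_num
  obtain ⟨c, ⟨c1, c2⟩, hc⟩ := hI h0
  simp only at hc
  have hs : sin (arcsin (1 - c)) = 1 - c := sin_arcsin (by linarith) (by linarith)
  have hle : arcsin (1 - c) ≤ π / 2 := arcsin_le_pi_div_two _
  have hge : 0 ≤ arcsin (1 - c) := arcsin_nonneg.2 (by linarith)
  have hpi := pi_gt_three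
  refine ⟨c, arcsin (1 - c), ⟨c1, c2, ?_, ?_, hs, ?_⟩, hc⟩
  · by_contra hh
    push Not at hh
    have h1 : sin (arcsin (1 - c)) ≤ sin 0.354 :=
      sin_le_sin_of_le_of_le_pi_div_two (by linarith) (by linarith) hh.le
    have h2 := sin_bound (x := 0.354) (by rw [abs_of_pos] <;> norm_num)
    rw [abs_of_pos (by norm_num : (0 : ℝ) < 0.354)] at h2
    have h3 := (abs_le.1 h2).2
    norm_num at h3
    linarith
  · by_contra hh
    push Not at hh
    have h1 : sin 0.3565 ≤ sin (arcsin (1 - c)) :=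
      sin_le_sin_of_le_of_le_pi_div_two (by linarith) hle hh.le
    have h2 := sin_ge_sub_cube (x := 0.3565) (by norm_num)
    norm_num at h2
    linarith
  · rw [sin_two_mul, hs]
    have hcos : 0 ≤ cos (arcsin (1 - c)) := cos_arcsin_nonneg _
    have h1 := sin_sq_add_cos_sq (arcsin (1 - c))
    rw [hs] at h1
    have h2 : (2 * (1 - c) * cos (arcsin (1 - c))) ^ 2 = c ^ 2 := by
      have : cos (arcsin (1 - c)) ^ 2 = 1 - (1 - c) ^ 2 := by linarith
      rw [mul_pow, this]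
      linear_combination (-c) * hc
    exact (pow_left_inj₀ (mul_nonneg (by linarith) hcos) (by linarith) two_ne_zero).1 h2

noncomputable def ch (t : ℝ) : ℝ := |2 * sin (t / 2)|

theorem ch_neg (t : ℝ) : ch (-t) = ch t := by
  unfold ch
  rw [neg_div, sin_neg, mul_neg, abs_neg]

theorem ch_abs (t : ℝ) : ch |t| = ch t := by
  rcases abs_choice t with h | h <;> rw [h]
  exact ch_neg t

theorem ch_eq {t : ℝ} (h0 : 0 ≤ t) (h1 : t ≤ 2 * π) : ch t = 2 * sin (t / 2) := by
  unfold ch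
  exact abs_of_nonneg (mul_nonneg (by norm_num)
    (sin_nonneg_of_nonneg_of_le_pi (by linarith) (by linarith)))

theorem ch_nonneg (t : ℝ) : 0 ≤ ch t := abs_nonneg _

theorem ch_le_two (t : ℝ) : ch t ≤ 2 := by
  unfold ch
  rw [abs_mul]
  have := abs_sin_le_one (t / 2)
  norm_num
  linarith

theorem norm_exp_sub (s t : ℝ) :
    ‖Complex.exp (Complex.I * s) - Complex.exp (Complex.I * t)‖ = ch (s - t) := by
  have h1 : Complex.exp (Complex.I * s) - Complex.exp (Complex.I * t) =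
      Complex.exp (Complex.I * t) * (Complex.exp (Complex.I * ((s - t : ℝ) : ℂ)) - 1) := by
    rw [mul_sub, ← Complex.exp_add]
    push_cast
    ring_nf
  rw [h1, norm_mul, Complex.norm_exp_I_mul_ofReal, one_mul, Complex.norm_exp_I_mul_ofReal_sub_one]
  rfl

theorem sqrt3_bounds : 1.73205 ≤ √3 ∧ √3 ≤ 1.732051 := by
  constructor
  · exact le_sqrt_of_sq_le (by norm_num)
  · exact sqrt_le_iff.2 ⟨by norm_num, by norm_num⟩

theorem sin_tangent {x : ℝ} (h0 : 0 ≤ x) : sin x ≤ √3 / 2 + (x - π / 3) / 2 := by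
  have e : sin x = √3 / 2 * cos (x - π / 3) + 1 / 2 * sin (x - π / 3) := by
    have : sin x = sin (π / 3 + (x - π / 3)) := by ring_nf
    rw [this, sin_add, sin_pi_div_three, cos_pi_div_three]
  obtain ⟨a1, a2⟩ := sqrt3_bounds
  have hp1 := pi_gt_d2
  have hp2 := pi_lt_d2
  rcases le_total 0 (x - π / 3) with h | h
  · have b1 := sin_le h
    have b2 := cos_le_one (x - π / 3)
    rw [e]
    nlinarith
  · set y := π / 3 - x with hy
    have y0 : 0 ≤ y := by linarith
    have y1 : y ≤ 1.05 := by linarith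
    have e2 : x - π / 3 = -y := by linarith
    rw [e, e2, sin_neg, cos_neg]
    have b1 := sin_ge_sub_cube y0
    have b2 := cos_le_one_sub_mul_cos_sq (x := y) (by rw [abs_of_nonneg y0]; linarith)
    have b3 : 0.2 ≤ 2 / π ^ 2 := by
      rw [le_div_iff₀ (by positivity)]
      nlinarith
    have b4 : cos y ≤ 1 - 0.2 * y ^ 2 := by nlinarith [sq_nonneg y]
    have b5 : y ^ 3 ≤ 1.05 * y ^ 2 := by nlinarith [sq_nonneg y]
    have b6 : √3 / 2 * cos y ≤ √3 / 2 * (1 - 0.2 * y ^ 2) :=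
      mul_le_mul_of_nonneg_left b4 (by positivity)
    nlinarith [sq_nonneg y]

noncomputable def JJ (c : ℝ) : ℝ := 2 * π / 3 - 2 * √3 + 4 * c
noncomputable def LL (c : ℝ) : ℝ := π - JJ c

theorem JJ_bounds {c h : ℝ} (P : Par c h) : 1.239 ≤ JJ c ∧ JJ c ≤ 1.2391 := by
  obtain ⟨a1, a2⟩ := sqrt3_bounds
  have hp1 := pi_gt_d6
  have hp2 := pi_lt_d6
  have := P.c1
  have := P.c2
  unfold JJ
  constructor <;> linarith

theorem LL_bounds {c h : ℝ} (P : Par c h) : 1.9024 ≤ LL c ∧ LL c ≤ 1.9026 := by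
  obtain ⟨a1, a2⟩ := JJ_bounds P
  have hp1 := pi_gt_d6
  have hp2 := pi_lt_d6
  unfold LL
  constructor <;> linarith

theorem U1 {c t d : ℝ} (h0 : 0 ≤ t) (h1 : t ≤ 2 * π) (h2 : t ≤ JJ c + 2 * d) :
    ch t ≤ 2 * c + d := by
  rw [ch_eq h0 h1]
  have := sin_tangent (x := t / 2) (by linarith)
  unfold JJ at h2
  linarith

theorem U2 {c h t d : ℝ} (P : Par c h) (h0 : 0 ≤ t) (h1 : t ≤ 2 * π) (hd : 0 ≤ d)
    (h2 : t ≤ 4 * h + d) : ch t ≤ 2 * c + d := by
  rw [ch_eq h0 h1]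
  have hp1 := pi_gt_d2
  have := P.h2
  have := P.s2
  rcases le_total (t / 2) (2 * h) with a | a
  · have := sin_le_sin_of_le_of_le_pi_div_two (x := t / 2) (y := 2 * h) (by linarith)
      (by linarith) a
    linarith
  · have b := abs_sin_sub_sin_le (t / 2) (2 * h)
    rw [abs_of_nonneg (by linarith : 0 ≤ t / 2 - 2 * h)] at b
    have := (abs_le.1 b).2
    linarith

theorem U4 {t : ℝ} (h0 : π + 0.4326 ≤ t) (h1 : t ≤ 2 * π) : ch t ≤ 1.9536 := by
  have hp1 := pi_gt_d2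
  rw [ch_eq (by linarith) h1]
  have e : sin (t / 2) = cos (t / 2 - π / 2) := by rw [cos_sub_pi_div_two]
  have b : cos (t / 2 - π / 2) ≤ cos 0.2163 :=
    cos_le_cos_of_nonneg_of_le_pi (by norm_num) (by linarith) (by linarith)
  have h2 := cos_bound (x := 0.2163) (by rw [abs_of_pos] <;> norm_num)
  rw [abs_of_pos (by norm_num : (0 : ℝ) < 0.2163)] at h2
  have h3 := (abs_le.1 h2).2
  norm_num at h3
  linarith

theorem L2 {c h t d : ℝ} (P : Par c h) (hd1 : 2 * c ≤ d) (hd2 : d ≤ 2)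
    (h1 : h * (d - 2 * c) ≤ (1 - c) * t) (h2 : h * (d - 2 * c) ≤ (1 - c) * (2 * π - t)) :
    d - 2 * c ≤ ch t := by
  have hp1 := pi_gt_d2
  have c1 := P.c1
  have c2 := P.c2
  have a1 := P.h1
  have a2 := P.h2
  set k := 1 - c with hk
  have k0 : 0 < k := by linarith
  set w := (d - 2 * c) / (2 * k) with hw
  have w0 : 0 ≤ w := div_nonneg (by linarith) (by linarith)
  have w1 : w ≤ 1 := by rw [hw, div_le_one (by linarith)]; linarith
  have ew : d - 2 * c = 2 * k * w := by rw [hw]; field_simp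
  have hw0 : 0 ≤ w * h := mul_nonneg w0 (by linarith)
  have hw1 : w * h ≤ h := by nlinarith
  have t1 : w * h ≤ t / 2 := by
    rw [ew] at h1
    have : k * (w * h) ≤ k * (t / 2) := by linarith
    exact le_of_mul_le_mul_left this k0
  have t2 : w * h ≤ π - t / 2 := by
    rw [ew] at h2
    have : k * (w * h) ≤ k * (π - t / 2) := by linarith
    exact le_of_mul_le_mul_left this k0
  have conc : w * k ≤ sin (w * h) := by
    have m0 : (0 : ℝ) ∈ Icc 0 π := ⟨le_rfl, by linarith⟩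
    have mh : h ∈ Icc 0 π := ⟨by linarith, by linarith⟩
    have := strictConcaveOn_sin_Icc.concaveOn.2 m0 mh (by linarith : 0 ≤ 1 - w) w0 (by ring)
    simp only [smul_eq_mul, mul_zero, sin_zero, zero_add, P.sh] at this
    exact this
  rw [ch_eq (by linarith) (by linarith)]
  rcases le_total (t / 2) (π / 2) with a | a
  · have := sin_le_sin_of_le_of_le_pi_div_two (x := w * h) (y := t / 2) (by linarith) a t1
    linarith
  · have := sin_le_sin_of_le_of_le_pi_div_two (x := w * h) (y := π - t / 2) (by linarith)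
      (by linarith) t2
    rw [sin_pi_sub] at this
    linarith

end Pool.Agent.H.MP_431f4e_gt
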