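import Pool.Agent.H.MP_431f4e_gt.Ineq

namespace Pool.Agent.H.MP_431f4e_gt

open Real Set ComplexConjugate

noncomputable def qq (c : ℝ) : ℂ := ⟨0.71, c⟩

noncomputable def TT (c h : ℝ) (u : ℂ) : ℝ := max (gg h u.re u.im) (LL c - 2 * ‖u - qq c‖)

def Arc (c : ℝ) (u : ℂ) (t : ℝ) : Prop :=
  u.re = 0.71 ∧ ((u.im = c ∧ π - (4 - 6 * c) ≤ t ∧ t ≤ π) ∨
    (u.im = 2 - 2 * c ∧ LL c ≤ t ∧ t ≤ π - (4 - 6 * c)))

def Up (c h : ℝ) (u : ℂ) (t : ℝ) : Prop :=
  ‖u‖ ≤ 1 ∧ 0 ≤ u.im ∧ (t = TT c h u ∨ Arc c u t)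

theorem nsq (z : ℂ) : ‖z‖ ^ 2 = z.re ^ 2 + z.im ^ 2 := by
  rw [Complex.sq_norm, Complex.normSq_apply]
  ring

theorem disc_of {u : ℂ} (hu : ‖u‖ ≤ 1) : u.re ^ 2 + u.im ^ 2 ≤ 1 := by
  rw [← nsq]
  have := sq_le (norm_nonneg u) hu
  linarith

theorem Arc.facts {c h t : ℝ} {u : ℂ} (P : Par c h) (A : Arc c u t) :
    c ≤ u.im ∧ LL c ≤ t ∧ t ≤ π - 2 * (u.im - c) ∧ ‖u - qq c‖ = u.im - c := by
  have c1 := P.c1
  have c2 := P.c2
  have hp := pi_gt_d2
  obtain ⟨l1, l2⟩ := LL_bounds P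
  obtain ⟨h1, h2⟩ := A
  have k : c ≤ u.im := by
    rcases h2 with h2 | h2 <;> linarith [h2.1]
  refine ⟨k, ?_, ?_, ?_⟩
  · rcases h2 with h2 | h2 <;> linarith [h2.2.1]
  · rcases h2 with h2 | h2 <;> linarith [h2.1, h2.2.2]
  · have e : ‖u - qq c‖ ^ 2 = (u.im - c) ^ 2 := by
      rw [nsq]
      simp [qq, h1]
    exact (pow_left_inj₀ (norm_nonneg _) (by linarith) two_ne_zero).1 e

theorem TT_le {c h : ℝ} {u : ℂ} (P : Par c h) (hu : ‖u‖ ≤ 1) : TT c h u ≤ LL c := by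
  obtain ⟨l1, l2⟩ := LL_bounds P
  have g := (gg_bounds P (disc_of hu)).2
  have := norm_nonneg (u - qq c)
  exact max_le (by linarith) (by linarith)

theorem Up.facts {c h t : ℝ} {u : ℂ} (P : Par c h) (U : Up c h u t) :
    gg h u.re u.im ≤ t ∧ 0 ≤ t ∧ t ≤ π ∧ LL c - 2 * ‖u - qq c‖ ≤ t := by
  have hp := pi_gt_d2
  obtain ⟨l1, l2⟩ := LL_bounds P
  obtain ⟨h1, h2, h3⟩ := U
  obtain ⟨g1, g2⟩ := gg_bounds P (disc_of h1)
  rcases h3 with h3 | h3
  · have a1 : gg h u.re u.im ≤ t := h3 ▸ le_max_left _ _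
    have a2 : LL c - 2 * ‖u - qq c‖ ≤ t := h3 ▸ le_max_right _ _
    have a3 := TT_le P h1
    exact ⟨a1, by linarith, by linarith, a2⟩
  · obtain ⟨a1, a2, a3, a4⟩ := h3.facts P
    exact ⟨by linarith, by linarith, by linarith, by linarith⟩

theorem gg_lip {c h : ℝ} {u v : ℂ} (P : Par c h) (hu : ‖u‖ ≤ 1) (hv : ‖v‖ ≤ 1) (hu' : 0 ≤ u.im)
    (hv' : 0 ≤ v.im) : gg h u.re u.im ≤ gg h v.re v.im + 2 * ‖u - v‖ := by
  have a1 := P.h1
  have a2 := P.h2
  have b1 := (abs_le.1 (Complex.abs_re_le_norm (u - v))).2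
  have b2 := (abs_le.1 (Complex.abs_im_le_norm (u - v))).2
  rw [Complex.sub_re] at b1
  rw [Complex.sub_im] at b2
  have d0 := norm_nonneg (u - v)
  have y1 := (disc (disc_of hu)).2.2.1
  have y2 := (disc (disc_of hv)).2.2.1
  generalize ‖u - v‖ = d at *
  have e1 : u.im ^ 2 - v.im ^ 2 ≤ 2 * d := by nlinarith
  have e2 : u.re - v.re + 0.215 * (u.im ^ 2 - v.im ^ 2) ≤ 1.43 * d := by linarith
  have e3 := mul_le_mul_of_nonneg_left e2 (by linarith : 0 ≤ h)
  have e4 := mul_le_mul_of_nonneg_right a2 d0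
  unfold gg
  linarith

theorem same_up {c h t s : ℝ} {u v : ℂ} (P : Par c h) (U : Up c h u t) (V : Up c h v s) :
    t - s ≤ JJ c + 2 * ‖u - v‖ := by
  obtain ⟨j1, j2⟩ := JJ_bounds P
  obtain ⟨v1, v2, v3, v4⟩ := V.facts P
  have tri := norm_sub_le_norm_sub_add_norm_sub v u (qq c)
  rw [norm_sub_rev v u] at tri
  rcases U.2.2 with h3 | h3
  · have := gg_lip P U.1 V.1 U.2.1 V.2.1
    have : t ≤ s + 2 * ‖u - v‖ := by
      rw [h3]
      exact max_le (by linarith) (by linarith)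
    linarith
  · obtain ⟨a1, a2, a3, a4⟩ := h3.facts P
    unfold LL at v4
    linarith

theorem same_lo {c h t s : ℝ} {u v : ℂ} (P : Par c h) (U : Up c h u t) (V : Up c h v s)
    (hx : v.re ≤ u.re) : ‖u - v‖ - 2 * c ≤ ch (t - s) := by
  rcases le_or_gt ‖u - v‖ (2 * c) with hd | hd
  · linarith [ch_nonneg (t - s)]
  have c1 := P.c1
  have c2 := P.c2
  have a1 := P.h1
  have a2 := P.h2
  have hp := pi_gt_d2
  obtain ⟨u1, u2, u3, u4⟩ := U.facts P
  obtain ⟨v1, v2, v3, v4⟩ := V.facts P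
  have hd2 : ‖u - v‖ ≤ 2 := by
    have := norm_sub_le u v
    linarith [U.1, V.1]
  have e1 : ‖u - v‖ ^ 2 = (u.re - v.re) ^ 2 + (u.im - v.im) ^ 2 := by
    rw [nsq]
    simp
  have e2 : ‖v - qq c‖ ^ 2 = (v.re - 0.71) ^ 2 + (v.im - c) ^ 2 := by
    rw [nsq]
    simp [qq]
  have fx := far_x P (disc_of U.1) (disc_of V.1) U.2.1 V.2.1 hx e1 hd
  have x1 := (disc (disc_of U.1)).2.1
  rcases V.2.2 with h3 | h3
  · have k := same_low P (disc_of U.1) (disc_of V.1) U.2.1 V.2.1 hx e1 hd (norm_nonneg _) e2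
    have k2 : (1 - c) * (gg h u.re u.im - s) ≤ (1 - c) * (t - s) :=
      mul_le_mul_of_nonneg_left (by linarith) (by linarith)
    have k3 : (1 - c) * 3 ≤ (1 - c) * (2 * π - (t - s)) :=
      mul_le_mul_of_nonneg_left (by linarith) (by linarith)
    have k4 : h * (‖u - v‖ - 2 * c) ≤ 1 * 1 :=
      mul_le_mul (by linarith) (by linarith) (by linarith) (by norm_num)
    refine L2 P hd.le hd2 ?_ (by linarith)
    rw [h3] at k2 ⊢
    exact le_trans k k2
  · have := h3.1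
    linarith

theorem same {c h t s : ℝ} {u v : ℂ} (P : Par c h) (U : Up c h u t) (V : Up c h v s) :
    |‖u - v‖ - ch (t - s)| ≤ 2 * c := by
  obtain ⟨u1, u2, u3, u4⟩ := U.facts P
  obtain ⟨v1, v2, v3, v4⟩ := V.facts P
  have hp := pi_gt_d2
  have a1 := same_up P U V
  have a2 := same_up P V U
  rw [norm_sub_rev] at a2
  have a3 : ch |t - s| ≤ 2 * c + ‖u - v‖ :=
    U1 (abs_nonneg _) (abs_le.2 ⟨by linarith, by linarith⟩) (abs_le.2 ⟨by linarith, by linarith⟩)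
  rw [ch_abs] at a3
  rw [abs_le]
  refine ⟨by linarith, ?_⟩
  rcases le_total v.re u.re with hx | hx
  · linarith [same_lo P U V hx]
  · have := same_lo P V U hx
    rw [norm_sub_rev, ← ch_neg, neg_sub] at this
    linarith

theorem norm_sub_conj_comm (u v : ℂ) : ‖v - conj u‖ = ‖u - conj v‖ := by
  rw [← Complex.norm_conj, map_sub, Complex.conj_conj, norm_sub_rev]

theorem nsq_opp (u v : ℂ) : ‖u - conj v‖ ^ 2 = (u.re - v.re) ^ 2 + (u.im + v.im) ^ 2 := by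
  rw [nsq]
  simp

theorem im_le_opp (u v : ℂ) : u.im + v.im ≤ ‖u - conj v‖ := by
  have := (abs_le.1 (Complex.abs_im_le_norm (u - conj v))).2
  simpa using this

theorem opp_arc {c h t s : ℝ} {u v : ℂ} (P : Par c h) (A : Arc c u t) (V : Up c h v s) :
    ch (t + s) ≤ 2 * c + ‖u - conj v‖ := by
  have c1 := P.c1
  have c2 := P.c2
  have hp := pi_gt_d2
  obtain ⟨v1, v2, v3, v4⟩ := V.facts P
  have i1 := im_le_opp u v
  have i2 := V.2.1
  have i3 := ch_le_two (t + s)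
  rcases le_or_gt (2 - 2 * c) ‖u - conj v‖ with hd | hd
  · linarith
  obtain ⟨h1, h2 | h2⟩ := A
  · obtain ⟨h2, h3, h4⟩ := h2
    have e1 := nsq_opp u v
    rw [h1, h2] at e1
    have e2 := sq_le (norm_nonneg _) (by linarith : ‖u - conj v‖ ≤ 0.69564)
    have e3 := sq_le (x := 0.65218) (y := c + v.im) (by norm_num) (by linarith)
    have e4 : 0.71 - v.re ≤ 0.2421 := le_sq (by norm_num at e2 e3 ⊢; linarith) (by norm_num)
    have e5 := gg_ge (x := v.re) (y := v.im) P (by linarith)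
    have e6 := U4 (t := t + s) (by linarith) (by linarith)
    linarith
  · linarith [h2.1]

theorem opp_cone {c h s : ℝ} {u v : ℂ} (P : Par c h) (U : Up c h u (LL c - 2 * ‖u - qq c‖))
    (V : Up c h v s) (hs : s = TT c h v) :
    ch (LL c - 2 * ‖u - qq c‖ + s) ≤ 2 * c + ‖u - conj v‖ := by
  have c1 := P.c1
  have c2 := P.c2
  obtain ⟨u1, u2, u3, u4⟩ := U.facts P
  obtain ⟨v1, v2, v3, v4⟩ := V.facts P
  obtain ⟨l1, l2⟩ := LL_bounds P
  obtain ⟨j1, j2⟩ := JJ_bounds P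
  refine U1 (by linarith) (by linarith) ?_
  have tri := norm_sub_le_norm_sub_add_norm_sub (qq c) u (conj v)
  rw [norm_sub_rev (qq c) u] at tri
  have e1 : ‖qq c - conj v‖ ^ 2 = (v.re - 0.71) ^ 2 + (v.im + c) ^ 2 := by
    rw [nsq_opp]
    simp only [qq]
    ring
  have k1 := K1 P (disc_of V.1) V.2.1 (norm_nonneg _) e1
  have k2 : 2 * c ≤ ‖qq c - conj v‖ + ‖v - qq c‖ := by
    have b1 := im_le_opp (qq c) v
    have b2 := (abs_le.1 (Complex.abs_im_le_norm (v - qq c))).1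
    rw [Complex.sub_im] at b2
    simp only [qq] at b1 b2 ⊢
    linarith
  have : s ≤ JJ c + 2 * ‖u - conj v‖ - (LL c - 2 * ‖u - qq c‖) := by
    rw [hs]
    exact max_le (by linarith) (by linarith)
  linarith

theorem opp_up {c h t s : ℝ} {u v : ℂ} (P : Par c h) (U : Up c h u t) (V : Up c h v s) :
    ch (t + s) ≤ 2 * c + ‖u - conj v‖ := by
  rcases U.2.2 with hu | hu
  swap
  · exact opp_arc P hu V
  rcases V.2.2 with hv | hv
  swap
  · rw [add_comm t s, ← norm_sub_conj_comm]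
    exact opp_arc P hv U
  rcases max_choice (gg h u.re u.im) (LL c - 2 * ‖u - qq c‖) with e1 | e1
  swap
  · have e : t = LL c - 2 * ‖u - qq c‖ := hu.trans e1
    rw [e] at U ⊢
    exact opp_cone P U V hv
  rcases max_choice (gg h v.re v.im) (LL c - 2 * ‖v - qq c‖) with e2 | e2
  swap
  · have e : s = LL c - 2 * ‖v - qq c‖ := hv.trans e2
    rw [add_comm t s, ← norm_sub_conj_comm]
    rw [e] at V ⊢
    exact opp_cone P V U hu
  have f1 : t = gg h u.re u.im := hu.trans e1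
  have f2 : s = gg h v.re v.im := hv.trans e2
  obtain ⟨u1, u2, u3, u4⟩ := U.facts P
  obtain ⟨v1, v2, v3, v4⟩ := V.facts P
  refine U2 P (by linarith) (by linarith) (norm_nonneg _) ?_
  have i1 := im_le_opp u v
  obtain ⟨-, x1, y1, -⟩ := disc (disc_of U.1)
  obtain ⟨-, x2, y2, -⟩ := disc (disc_of V.1)
  have y3 := U.2.1
  have y4 := V.2.1
  have a1 := P.h1
  have a2 := P.h2
  have z1 : u.im ^ 2 ≤ u.im := by nlinarith
  have z2 : v.im ^ 2 ≤ v.im := by nlinarith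
  have z3 : u.re + v.re + 0.215 * (u.im ^ 2 + v.im ^ 2) ≤ 2 + (u.im + v.im) := by linarith
  have z4 := mul_le_mul_of_nonneg_left z3 (by linarith : 0 ≤ h)
  have z5 := mul_le_mul_of_nonneg_right a2 (by linarith : 0 ≤ u.im + v.im)
  rw [f1, f2]
  unfold gg
  linarith

theorem opp_lo {c h t s : ℝ} {u v : ℂ} (P : Par c h) (U : Up c h u t) (V : Up c h v s) :
    ‖u - conj v‖ - 2 * c ≤ ch (t + s) := by
  rcases le_or_gt ‖u - conj v‖ (2 * c) with hd | hd
  · linarith [ch_nonneg (t + s)]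
  have c1 := P.c1
  have c2 := P.c2
  have a1 := P.h1
  have a2 := P.h2
  have hp := pi_gt_d2
  obtain ⟨l1, l2⟩ := LL_bounds P
  obtain ⟨u1, u2, u3, u4⟩ := U.facts P
  obtain ⟨v1, v2, v3, v4⟩ := V.facts P
  have hd2 : ‖u - conj v‖ ≤ 2 := by
    have := norm_sub_le u (conj v)
    rw [Complex.norm_conj] at this
    linarith [U.1, V.1]
  have k := K2 P (disc_of U.1) (disc_of V.1) U.2.1 V.2.1 (nsq_opp u v)
  have k2 : (1 - c) * (gg h u.re u.im + gg h v.re v.im) ≤ (1 - c) * (t + s) :=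
    mul_le_mul_of_nonneg_left (by linarith) (by linarith)
  refine L2 P hd.le hd2 (le_trans k k2) ?_
  have gen : t + s ≤ π + LL c → h * (‖u - conj v‖ - 2 * c) ≤ (1 - c) * (2 * π - (t + s)) := by
    intro hh
    have k3 : (1 - c) * 1 ≤ (1 - c) * (2 * π - (t + s)) :=
      mul_le_mul_of_nonneg_left (by linarith) (by linarith)
    have k4 : h * (‖u - conj v‖ - 2 * c) ≤ 0.3565 * 0.7 :=
      mul_le_mul (by linarith) (by linarith) (by linarith) (by norm_num)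
    linarith
  rcases U.2.2 with hu | hu
  · have := TT_le P U.1
    exact gen (by linarith)
  rcases V.2.2 with hv | hv
  · have := TT_le P V.1
    exact gen (by linarith)
  obtain ⟨b1, b2, b3, b4⟩ := hu.facts P
  obtain ⟨d1, d2, d3, d4⟩ := hv.facts P
  have e1 : ‖u - conj v‖ ≤ u.im + v.im := by
    refine le_sq ?_ (by linarith)
    rw [nsq_opp, hu.1, hv.1]
    simp
  have k3 : (1 - c) * (2 * (‖u - conj v‖ - 2 * c)) ≤ (1 - c) * (2 * π - (t + s)) :=
    mul_le_mul_of_nonneg_left (by linarith) (by linarith)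
  have k4 : h * (‖u - conj v‖ - 2 * c) ≤ (2 * (1 - c)) * (‖u - conj v‖ - 2 * c) :=
    mul_le_mul_of_nonneg_right (by linarith) (by linarith)
  linarith

theorem opp {c h t s : ℝ} {u v : ℂ} (P : Par c h) (U : Up c h u t) (V : Up c h v s) :
    |‖u - conj v‖ - ch (t + s)| ≤ 2 * c := by
  have a1 := opp_up P U V
  have a2 := opp_lo P U V
  rw [abs_le]
  constructor <;> linarith

theorem cover {c h t : ℝ} (P : Par c h) (h0 : 0 ≤ t) (h1 : t ≤ π) : ∃ u, Up c h u t := by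
  have c1 := P.c1
  have c2 := P.c2
  obtain ⟨l1, l2⟩ := LL_bounds P
  have nq : ∀ y : ℝ, 0 ≤ y → y ≤ 0.7 → ‖(⟨0.71, y⟩ : ℂ)‖ ≤ 1 := by
    intro y y0 y1
    refine le_sq ?_ (by norm_num)
    rw [nsq]
    have := sq_le y0 y1
    norm_num at this ⊢
    linarith
  rcases le_total (π - (4 - 6 * c)) t with a | a
  · exact ⟨⟨0.71, c⟩, nq c (by linarith) (by linarith), by simp only; linarith,
      Or.inr ⟨rfl, Or.inl ⟨rfl, a, h1⟩⟩⟩
  rcases le_total (LL c) t with b | b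
  · exact ⟨⟨0.71, 2 - 2 * c⟩, nq _ (by linarith) (by linarith), by simp only; linarith,
      Or.inr ⟨rfl, Or.inr ⟨rfl, b, a⟩⟩⟩
  let γ : ℝ → ℂ := fun w => ((1 - w : ℝ) : ℂ) * (-1) + (w : ℂ) * qq c
  have hcont : ContinuousOn (fun w => TT c h (γ w)) (Icc 0 1) := by
    apply Continuous.continuousOn
    unfold TT gg
    simp only [γ]
    fun_prop
  have g0 : γ 0 = -1 := by simp [γ]
  have g1 : γ 1 = qq c := by simp [γ]
  have t0 : TT c h (γ 0) ≤ t := by
    rw [g0]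
    refine max_le ?_ ?_
    · simp [gg, h0]
    · have := (abs_le.1 (Complex.abs_re_le_norm (-1 - qq c))).1
      have e : (-1 - qq c).re = -1.71 := by
        simp only [qq, Complex.sub_re, Complex.neg_re, Complex.one_re]
        norm_num
      rw [e] at this
      linarith
  have t1 : t ≤ TT c h (γ 1) := by
    rw [g1]
    refine le_trans b (le_trans ?_ (le_max_right _ _))
    simp
  obtain ⟨w, ⟨w0, w1⟩, hw⟩ := intermediate_value_Icc zero_le_one hcont ⟨t0, t1⟩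
  refine ⟨γ w, ?_, ?_, Or.inl hw.symm⟩
  · have n1 : ‖qq c‖ ≤ 1 := nq c (by linarith) (by linarith)
    have n2 := norm_add_le (((1 - w : ℝ) : ℂ) * (-1)) ((w : ℂ) * qq c)
    rw [norm_mul, norm_mul, Complex.norm_real, Complex.norm_real, Real.norm_eq_abs,
      Real.norm_eq_abs, abs_of_nonneg (by linarith), abs_of_nonneg w0, norm_neg, norm_one] at n2
    have n3 := mul_le_mul_of_nonneg_left n1 w0
    simp only [γ]
    linarith
  · have : (γ w).im = w * c := by simp [γ, qq]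
    rw [this]
    exact mul_nonneg w0 (by linarith)

def Rel (c h : ℝ) (u z : ℂ) : Prop :=
  ∃ t : ℝ, z = Complex.exp (Complex.I * t) ∧ (Up c h u t ∨ Up c h (conj u) (-t))

theorem rel_left {c h : ℝ} {u : ℂ} (hu : ‖u‖ ≤ 1) : ∃ z, ‖z‖ = 1 ∧ Rel c h u z := by
  rcases le_total 0 u.im with a | a
  · exact ⟨_, Complex.norm_exp_I_mul_ofReal _, TT c h u, rfl, Or.inl ⟨hu, a, Or.inl rfl⟩⟩
  · refine ⟨_, Complex.norm_exp_I_mul_ofReal _, -TT c h (conj u), rfl, Or.inr ⟨?_, ?_, ?_⟩⟩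
    · rwa [Complex.norm_conj]
    · simpa using a
    · exact Or.inl (neg_neg _)

theorem rel_right {c h : ℝ} (P : Par c h) {z : ℂ} (hz : ‖z‖ = 1) :
    ∃ u, ‖u‖ ≤ 1 ∧ Rel c h u z := by
  have e : z = Complex.exp (Complex.I * (Complex.arg z : ℝ)) := by
    have := Complex.norm_mul_exp_arg_mul_I z
    rw [hz] at this
    rw [mul_comm]
    simpa using this.symm
  have b := abs_le.1 (Complex.abs_arg_le_pi z)
  rcases le_total 0 (Complex.arg z) with a | a
  · obtain ⟨u, hu⟩ := cover P a b.2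
    exact ⟨u, hu.1, _, e, Or.inl hu⟩
  · obtain ⟨u, hu⟩ := cover (t := -Complex.arg z) P (by linarith) (by linarith)
    refine ⟨conj u, by rw [Complex.norm_conj]; exact hu.1, _, e, Or.inr ?_⟩
    rwa [Complex.conj_conj]

theorem rel_dis {c h : ℝ} (P : Par c h) {u z v w : ℂ} (R1 : Rel c h u z) (R2 : Rel c h v w) :
    |‖u - v‖ - ‖z - w‖| ≤ 2 * c := by
  obtain ⟨t, rfl, h1⟩ := R1
  obtain ⟨s, rfl, h2⟩ := R2
  rw [norm_exp_sub]
  rcases h1 with h1 | h1 <;> rcases h2 with h2 | h2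
  · exact same P h1 h2
  · have := opp P h1 h2
    rwa [Complex.conj_conj, ← sub_eq_add_neg] at this
  · have := opp P h2 h1
    rwa [Complex.conj_conj, ← sub_eq_add_neg, norm_sub_rev, ← ch_neg, neg_sub] at this
  · have := same P h1 h2
    rwa [← map_sub, Complex.norm_conj, ← neg_sub', ch_neg] at this

end Pool.Agent.H.MP_431f4e_gt
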